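import Mathlib

/-!
Automatic continuity: homomorphisms of a Banach algebra which contains a sequence of pairwise
orthogonal full idempotents of norm at most one are bounded (gliding hump).
-/

set_option autoImplicit false

noncomputable section

namespace TH39.SP

open Finset

variable {A : Type*} [NormedRing A] [NormedAlgebra ℂ A] [CompleteSpace A]
variable {B : Type*} [NormedRing B] [NormedAlgebra ℂ B]

/-- Gliding hump: for one of the idempotents the homomorphism is bounded on the corner. -/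
theorem hump (p : ℕ → A) (hp : ∀ n, p n * p n = p n) (ho : ∀ m n, m ≠ n → p m * p n = 0)
    (hn : ∀ n, ‖p n‖ ≤ 1) (π : A →ₙₐ[ℂ] B) :
    ∃ n, ∃ C : ℝ, ∀ x, ‖π (p n * x * p n)‖ ≤ C * ‖x‖ := by
  by_contra hcon
  push Not at hcon
  choose y hy using fun n : ℕ => hcon n (2 ^ n * (n + 1) * (1 + ‖π (p n)‖ ^ 2))
  have hy0 : ∀ n, 0 < ‖y n‖ := by
    intro n
    rcases (norm_nonneg (y n)).lt_or_eq with h | h
    · exact h
    · exfalso
      have h1 : y n = 0 := norm_eq_zero.1 h.symm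
      have h2 := hy n
      rw [h1] at h2
      simp at h2
  let c : ℕ → ℝ := fun n => (2 ^ n * ‖y n‖)⁻¹
  have hc0 : ∀ n, 0 < c n := fun n => inv_pos.2 (mul_pos (by positivity) (hy0 n))
  let x : ℕ → A := fun n => (c n : ℂ) • (p n * y n * p n)
  have hx : ∀ n, ‖x n‖ ≤ (1 / 2 : ℝ) ^ n := by
    intro n
    have h1 : ‖p n * y n * p n‖ ≤ ‖y n‖ := by
      calc ‖p n * y n * p n‖ ≤ ‖p n * y n‖ * ‖p n‖ := norm_mul_le _ _
        _ ≤ (‖p n‖ * ‖y n‖) * ‖p n‖ := by gcongr; exact norm_mul_le _ _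
        _ ≤ (1 * ‖y n‖) * 1 := by
            have := hn n
            gcongr
        _ = ‖y n‖ := by ring
    calc ‖x n‖ = c n * ‖p n * y n * p n‖ := by
          simp only [x]
          rw [norm_smul, Complex.norm_real, Real.norm_of_nonneg (hc0 n).le]
      _ ≤ c n * ‖y n‖ := by
          have := (hc0 n).le
          gcongr
      _ = (1 / 2 : ℝ) ^ n := by
          have h2 := (hy0 n).ne'
          simp only [c]
          rw [one_div, inv_pow, mul_inv, mul_assoc, inv_mul_cancel₀ h2, mul_one]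
  have hsum : Summable x :=
    Summable.of_norm_bounded (summable_geometric_of_lt_one (by norm_num) (by norm_num)) hx
  have hpx : ∀ m n, m ≠ n → p m * x n * p m = 0 := by
    intro m n hmn
    simp only [x]
    rw [mul_smul_comm, ← mul_assoc, ← mul_assoc, ho m n hmn]
    simp
  have hpm : ∀ m, p m * x m * p m = x m := by
    intro m
    simp only [x]
    rw [mul_smul_comm, smul_mul_assoc]
    congr 1
    calc p m * (p m * y m * p m) * p m = (p m * p m) * y m * (p m * p m) := by noncomm_ring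
      _ = p m * y m * p m := by rw [hp]
  have hX : ∀ m, p m * (∑' n, x n) * p m = x m := by
    intro m
    rw [← hsum.tsum_mul_left, ← (hsum.mul_left (p m)).tsum_mul_right]
    rw [tsum_eq_single m]
    · exact hpm m
    · intro n hn'
      exact hpx m n hn'.symm
  obtain ⟨m, hm⟩ := exists_nat_gt ‖π (∑' n, x n)‖
  have h1 : ‖π (x m)‖ ≤ (1 + ‖π (p m)‖ ^ 2) * ‖π (∑' n, x n)‖ := by
    have h2 : π (x m) = π (p m) * π (∑' n, x n) * π (p m) := by
      rw [← map_mul, ← map_mul, hX]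
    rw [h2]
    calc ‖π (p m) * π (∑' n, x n) * π (p m)‖ ≤ ‖π (p m) * π (∑' n, x n)‖ * ‖π (p m)‖ :=
          norm_mul_le _ _
      _ ≤ (‖π (p m)‖ * ‖π (∑' n, x n)‖) * ‖π (p m)‖ := by
          gcongr
          exact norm_mul_le _ _
      _ = ‖π (p m)‖ ^ 2 * ‖π (∑' n, x n)‖ := by ring
      _ ≤ (1 + ‖π (p m)‖ ^ 2) * ‖π (∑' n, x n)‖ := by
          have := norm_nonneg (π (∑' n, x n))
          nlinarith
  have h3 : ‖π (x m)‖ = c m * ‖π (p m * y m * p m)‖ := by
    simp only [x]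
    rw [map_smul, norm_smul, Complex.norm_real, Real.norm_of_nonneg (hc0 m).le]
  have h4 : c m * (2 ^ m * (m + 1) * (1 + ‖π (p m)‖ ^ 2) * ‖y m‖) <
      c m * ‖π (p m * y m * p m)‖ := mul_lt_mul_of_pos_left (hy m) (hc0 m)
  have h5 : c m * (2 ^ m * (m + 1) * (1 + ‖π (p m)‖ ^ 2) * ‖y m‖) =
      (m + 1) * (1 + ‖π (p m)‖ ^ 2) := by
    have h2 := (hy0 m).ne'
    simp only [c]
    field_simp
  rw [h5, ← h3] at h4
  have h6 : (0 : ℝ) < 1 + ‖π (p m)‖ ^ 2 := by positivity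
  nlinarith

/-- `p` is full: one is a finite sum of elements `a * p * b`. -/
def Full {R : Type*} [Ring R] (p : R) : Prop :=
  ∃ (k : ℕ) (a b : Fin k → R), ∑ i, a i * p * b i = 1

omit [CompleteSpace A] in
/-- A homomorphism bounded on the corner of a full element is bounded. -/
theorem bounded_of_full (p : A) (hp : Full p) (π : A →ₙₐ[ℂ] B) (C : ℝ)
    (hC : ∀ x, ‖π (p * x * p)‖ ≤ C * ‖x‖) : ∃ D : ℝ, 0 ≤ D ∧ ∀ x, ‖π x‖ ≤ D * ‖x‖ := by
  obtain ⟨k, a, b, hab⟩ := hp
  have hC' : ∀ x, ‖π (p * x * p)‖ ≤ |C| * ‖x‖ := fun x =>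
    (hC x).trans (mul_le_mul_of_nonneg_right (le_abs_self C) (norm_nonneg x))
  refine ⟨∑ i, ∑ j, ‖π (a i)‖ * (|C| * (‖b i‖ * ‖a j‖)) * ‖π (b j)‖, by positivity, ?_⟩
  intro x
  have h1 : x = ∑ i, ∑ j, a i * (p * (b i * x * a j) * p) * b j := by
    calc x = 1 * x * 1 := by simp
      _ = (∑ i, a i * p * b i) * x * (∑ j, a j * p * b j) := by rw [hab]
      _ = ∑ i, ∑ j, a i * (p * (b i * x * a j) * p) * b j := by
          rw [Finset.sum_mul, Finset.sum_mul]
          refine Finset.sum_congr rfl fun i _ => ?_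
          rw [Finset.mul_sum]
          refine Finset.sum_congr rfl fun j _ => ?_
          noncomm_ring
  have h2 : π x = ∑ i, ∑ j, π (a i) * π (p * (b i * x * a j) * p) * π (b j) := by
    conv_lhs => rw [h1]
    rw [map_sum]
    refine Finset.sum_congr rfl fun i _ => ?_
    rw [map_sum]
    refine Finset.sum_congr rfl fun j _ => ?_
    rw [map_mul, map_mul]
  rw [h2, Finset.sum_mul]
  refine (norm_sum_le _ _).trans (Finset.sum_le_sum fun i _ => ?_)
  rw [Finset.sum_mul]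
  refine (norm_sum_le _ _).trans (Finset.sum_le_sum fun j _ => ?_)
  calc ‖π (a i) * π (p * (b i * x * a j) * p) * π (b j)‖
      ≤ ‖π (a i) * π (p * (b i * x * a j) * p)‖ * ‖π (b j)‖ := norm_mul_le _ _
    _ ≤ (‖π (a i)‖ * ‖π (p * (b i * x * a j) * p)‖) * ‖π (b j)‖ := by
        gcongr
        exact norm_mul_le _ _
    _ ≤ (‖π (a i)‖ * (|C| * ‖b i * x * a j‖)) * ‖π (b j)‖ := by
        gcongr
        exact hC' _
    _ ≤ (‖π (a i)‖ * (|C| * ((‖b i‖ * ‖x‖) * ‖a j‖))) * ‖π (b j)‖ := by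
        gcongr
        exact (norm_mul_le _ _).trans (mul_le_mul_of_nonneg_right (norm_mul_le _ _)
          (norm_nonneg _))
    _ = ‖π (a i)‖ * (|C| * (‖b i‖ * ‖a j‖)) * ‖π (b j)‖ * ‖x‖ := by ring

/-- Automatic continuity. -/
theorem bounded_of_seq (p : ℕ → A) (hp : ∀ n, p n * p n = p n)
    (ho : ∀ m n, m ≠ n → p m * p n = 0) (hn : ∀ n, ‖p n‖ ≤ 1) (hf : ∀ n, Full (p n))
    (π : A →ₙₐ[ℂ] B) : ∃ D : ℝ, 0 ≤ D ∧ ∀ x, ‖π x‖ ≤ D * ‖x‖ := by
  obtain ⟨n, C, hC⟩ := hump p hp ho hn π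
  exact bounded_of_full (p n) (hf n) π C hC

end TH39.SP
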