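import Mathlib
import Pool.Agent.TH39.SP.AutoCont
import Pool.Agent.H332R2.Kad4.NoMin
import Pool.Agent.H956R2.Kad4.Comp
import Pool.Agent.H445R2.Kad4.Range
import Pool.Agent.H85R2.Kad4.Polar
import Pool.Agent.H720R2.Kad4.Join
import Pool.Agent.H849R2.Kad4.F4

/-!
In a II_1 factor there is a sequence of pairwise orthogonal full projections.
-/

set_option autoImplicit false

open scoped ComplexOrder

noncomputable section

namespace TH39.SP

open H759R2.Kad

universe u

/-- The set of finite sums of elements `a * p * b`. -/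
def InId {R : Type*} [Ring R] (p x : R) : Prop :=
  ∃ (k : ℕ) (a b : Fin k → R), ∑ i, a i * p * b i = x

theorem InId.zero {R : Type*} [Ring R] (p : R) : InId p (0 : R) :=
  ⟨0, fun _ => 0, fun _ => 0, by simp⟩

theorem InId.one_term {R : Type*} [Ring R] (p a b : R) : InId p (a * p * b) :=
  ⟨1, fun _ => a, fun _ => b, by simp⟩

theorem InId.add {R : Type*} [Ring R] {p x y : R} (hx : InId p x) (hy : InId p y) :
    InId p (x + y) := by
  obtain ⟨k, a, b, h1⟩ := hx
  obtain ⟨l, c, d, h2⟩ := hy
  refine ⟨k + l, Fin.append a c, Fin.append b d, ?_⟩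
  rw [Fin.sum_univ_add]
  simp [h1, h2]

section

variable {H : Type u} [NormedAddCommGroup H] [InnerProductSpace ℂ H] [CompleteSpace H]

theorem comp_holds : F_comp.{u} := prove5_comp prove5_join prove5_polar prove5_chain

theorem nomin_holds : F_nomin.{u} := prove5_nomin prove5_range comp_holds

variable {M : VonNeumannAlgebra H} {τ : M.toStarSubalgebra →ₗ[ℂ] ℂ}

/-- Comparability inside the algebra. -/
theorem comp' (hM : IsII1 M τ) (p q : M.toStarSubalgebra) (hp : star p = p) (hp2 : p * p = p)
    (hq : star q = q) (hq2 : q * q = q) :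
    ∃ v : M.toStarSubalgebra, (star v * v = p ∧ q * v = v) ∨ (v * star v = q ∧ v * p = v) := by
  obtain ⟨v, hv, h⟩ := comp_holds H M hM.center p.1 p.2 q.1 q.2
    ⟨congrArg Subtype.val hp, congrArg Subtype.val hp2⟩
    ⟨congrArg Subtype.val hq, congrArg Subtype.val hq2⟩
  refine ⟨⟨v, hv⟩, ?_⟩
  rcases h with ⟨h1, h2⟩ | ⟨h1, h2⟩
  · exact Or.inl ⟨Subtype.ext h1, Subtype.ext h2⟩
  · exact Or.inr ⟨Subtype.ext h1, Subtype.ext h2⟩

theorem pi_mul {A : Type*} [CStarAlgebra A] {v p : A} (hp : star p = p) (hp2 : p * p = p)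
    (h : star v * v = p) : v * p = v := by
  have h1 : star (v - v * p) * (v - v * p) = 0 := by
    have h2 : star (v - v * p) = star v - p * star v := by rw [star_sub, star_mul, hp]
    rw [h2]
    have : (star v - p * star v) * (v - v * p) =
        star v * v - (star v * v) * p - p * (star v * v) + p * (star v * v) * p := by
      noncomm_ring
    rw [this, h, hp2, hp2]
    simp
  have h3 := CStarRing.star_mul_self_eq_zero_iff (v - v * p)
  rw [h3] at h1
  exact (sub_eq_zero.1 h1).symm

theorem tr_nonneg (hM : IsII1 M τ) {q : M.toStarSubalgebra} (hq : star q = q)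
    (hq2 : q * q = q) : 0 ≤ (τ q).re ∧ (τ q).im = 0 := by
  have h := hM.trace.pos q
  rw [hq, hq2] at h
  rw [Complex.le_def] at h
  exact ⟨by simpa using h.1, by simpa using h.2.symm⟩

theorem inId_aux (hM : IsII1 M τ) (p : M.toStarSubalgebra) (hp : star p = p)
    (hp2 : p * p = p) (n : ℕ) : ∀ q : M.toStarSubalgebra, star q = q → q * q = q →
      (τ q).re ≤ n * (τ p).re → InId p q := by
  induction n with
  | zero =>
    intro q hq hq2 h
    have h1 := tr_nonneg hM hq hq2
    have h2 : τ (star q * q) = 0 := by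
      rw [hq, hq2]
      apply Complex.ext
      · have : (τ q).re ≤ 0 := by simpa using h
        simpa using le_antisymm this h1.1
      · simpa using h1.2
    rw [hM.faithful q h2]
    exact InId.zero p
  | succ n ih =>
    intro q hq hq2 h
    obtain ⟨v, hv⟩ := comp' hM p q hp hp2 hq hq2
    rcases hv with ⟨h1, h2⟩ | ⟨h1, h2⟩
    · have h3 : v * p = v := pi_mul hp hp2 h1
      have h4 : star v * q = star v := by
        have := congrArg star h2
        rwa [star_mul, hq] at this
      have h5 : v * star v = v * p * star v := by rw [h3]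
      have h6 : (v * star v) * (v * star v) = v * star v := by
        calc (v * star v) * (v * star v) = v * (star v * v) * star v := by noncomm_ring
          _ = v * star v := by rw [h1, h3]
      have h7 : q * (v * star v) = v * star v := by rw [← mul_assoc, h2]
      have h8 : (v * star v) * q = v * star v := by rw [mul_assoc, h4]
      have h9 : InId p (q - v * star v) := by
        refine ih (q - v * star v) ?_ ?_ ?_
        · rw [star_sub, hq, star_mul, star_star]
        · have : (q - v * star v) * (q - v * star v) =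
              q * q - q * (v * star v) - (v * star v) * q + (v * star v) * (v * star v) := by
            noncomm_ring
          rw [this, hq2, h7, h8, h6]
          abel
        · have h10 : τ (v * star v) = τ p := by rw [hM.trace.comm, h1]
          rw [map_sub, h10, Complex.sub_re]
          push_cast at h
          linarith
      have h11 : InId p (v * star v) := by
        rw [h5]
        exact InId.one_term p v (star v)
      have := h9.add h11
      simpa using this
    · have h3 : q = v * p * star v := by rw [h2, h1]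
      rw [h3]
      exact InId.one_term p v (star v)

/-- Nonzero projections of a II_1 factor are full. -/
theorem full_of_ne (hM : IsII1 M τ) (p : M.toStarSubalgebra) (hp : star p = p)
    (hp2 : p * p = p) (h0 : p ≠ 0) : Full p := by
  have h1 := tr_nonneg hM hp hp2
  have h2 : 0 < (τ p).re := by
    rcases h1.1.lt_or_eq with h | h
    · exact h
    · exfalso
      apply h0
      apply hM.faithful p
      rw [hp, hp2]
      apply Complex.ext
      · simpa using h.symm
      · simpa using h1.2
  obtain ⟨n, hn⟩ := exists_nat_gt ((1 : ℝ) / (τ p).re)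
  have h3 : (τ 1).re ≤ n * (τ p).re := by
    rw [hM.trace.one]
    rw [div_lt_iff₀ h2] at hn
    simpa using hn.le
  exact inId_aux hM p hp hp2 n 1 (star_one _) (one_mul 1) h3

/-- In a II_1 factor there is a sequence of pairwise orthogonal nonzero projections. -/
theorem exists_seq (hM : IsII1 M τ) : ∃ p : ℕ → M.toStarSubalgebra,
    (∀ n, star (p n) = p n) ∧ (∀ n, p n * p n = p n) ∧ (∀ n, p n ≠ 0) ∧
      ∀ m n, m ≠ n → p m * p n = 0 := by
  have key : ∀ r : {r : M.toStarSubalgebra // star r = r ∧ r * r = r ∧ r ≠ 0},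
      ∃ q : M.toStarSubalgebra, star q = q ∧ q * q = q ∧ r.1 * q = q ∧ q ≠ 0 ∧ q ≠ r.1 := by
    rintro ⟨r, hr1, hr2, hr3⟩
    obtain ⟨q, hq, hq1, hq2, hq3, hq4⟩ := nomin_holds H M τ hM r.1 r.2
      ⟨congrArg Subtype.val hr1, congrArg Subtype.val hr2⟩ (fun h => hr3 (Subtype.ext h))
    refine ⟨⟨q, hq⟩, Subtype.ext hq1.1, Subtype.ext hq1.2, Subtype.ext hq2, ?_, ?_⟩
    · intro h
      exact hq3 (congrArg Subtype.val h)
    · intro h
      exact hq4 (congrArg Subtype.val h)
  choose Q hQ1 hQ2 hQ3 hQ4 hQ5 using key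
  have hQ3' : ∀ r, Q r * r.1 = Q r := by
    intro r
    have := congrArg star (hQ3 r)
    rwa [star_mul, hQ1, r.2.1] at this
  have hne : (1 : M.toStarSubalgebra) ≠ 0 := by
    intro h
    have := hM.trace.one
    rw [h, map_zero] at this
    exact zero_ne_one this
  let R : ℕ → {r : M.toStarSubalgebra // star r = r ∧ r * r = r ∧ r ≠ 0} := fun n =>
    Nat.rec ⟨1, star_one _, one_mul 1, hne⟩ (fun _ r => ⟨r.1 - Q r, by
      rw [star_sub, r.2.1, hQ1], by
      have : (r.1 - Q r) * (r.1 - Q r) = r.1 * r.1 - r.1 * Q r - Q r * r.1 + Q r * Q r := by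
        noncomm_ring
      rw [this, r.2.2.1, hQ3, hQ3', hQ2]
      abel, by
      intro h
      exact hQ5 r (sub_eq_zero.1 h).symm⟩) n
  have hR : ∀ n, (R (n + 1)).1 = (R n).1 - Q (R n) := fun n => rfl
  -- `R m ≤ R (n+1)` for `m > n`
  have hle : ∀ n k, (R n).1 * (R (n + k)).1 = (R (n + k)).1 := by
    intro n k
    induction k with
    | zero => simpa using (R n).2.2.1
    | succ k ih =>
      have h1 : (R (n + (k + 1))).1 = (R (n + k)).1 - Q (R (n + k)) := hR (n + k)
      rw [h1, mul_sub, ih]
      congr 1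
      calc (R n).1 * Q (R (n + k)) = (R n).1 * ((R (n + k)).1 * Q (R (n + k))) := by rw [hQ3]
        _ = ((R n).1 * (R (n + k)).1) * Q (R (n + k)) := by rw [mul_assoc]
        _ = Q (R (n + k)) := by rw [ih, hQ3]
  have hQR : ∀ n, Q (R n) * (R (n + 1)).1 = 0 := by
    intro n
    rw [hR, mul_sub, hQ3', hQ2, sub_self]
  have hlt : ∀ m n, m < n → Q (R m) * Q (R n) = 0 := by
    intro m n hmn
    obtain ⟨k, rfl⟩ := Nat.exists_eq_add_of_lt hmn
    have h1 : Q (R (m + k + 1)) = (R (m + 1 + k)).1 * Q (R (m + k + 1)) := by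
      have : m + 1 + k = m + k + 1 := by ring
      rw [this, hQ3]
    rw [h1, ← hle (m + 1) k]
    calc Q (R m) * ((R (m + 1)).1 * (R (m + 1 + k)).1 * Q (R (m + k + 1)))
        = (Q (R m) * (R (m + 1)).1) * ((R (m + 1 + k)).1 * Q (R (m + k + 1))) := by
          noncomm_ring
      _ = 0 := by rw [hQR, zero_mul]
  refine ⟨fun n => Q (R n), fun n => hQ1 _, fun n => hQ2 _, fun n => hQ4 _, ?_⟩
  intro m n hmn
  rcases lt_or_gt_of_ne hmn with h | h
  · exact hlt m n h
  · have := congrArg star (hlt n m h)
    rwa [star_mul, hQ1, hQ1, star_zero] at this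

end

end TH39.SP
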