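import Mathlib
import Pool.Agent.H770R2.Kad.HAsm

/-!
Bounded homomorphisms of C*-algebras, with or without unit, into `B(K)` are similar to
*-homomorphisms; no unit condition on the homomorphism.
-/

set_option autoImplicit false

open scoped ComplexOrder

noncomputable section

namespace TH39.SP

variable (A : Type) [NonUnitalCStarAlgebra A]

theorem fst_le (x : Unitization ℂ A) : ‖x.fst‖ ≤ ‖x‖ := by
  rw [Unitization.norm_eq_sup]
  exact le_sup_left

theorem snd_le (x : Unitization ℂ A) : ‖x.snd‖ ≤ 2 * ‖x‖ := by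
  have h1 : (x.snd : Unitization ℂ A) = x - algebraMap ℂ (Unitization ℂ A) x.fst := by
    apply Unitization.ext
    · rw [Unitization.fst_inr]
      change _ = x.fst - (algebraMap ℂ (Unitization ℂ A) x.fst).fst
      rw [Unitization.algebraMap_eq_inl, Unitization.fst_inl, sub_self]
    · rw [Unitization.snd_inr]
      change _ = x.snd - (algebraMap ℂ (Unitization ℂ A) x.fst).snd
      rw [Unitization.algebraMap_eq_inl, Unitization.snd_inl, sub_zero]
  have h2 : ‖(x.snd : Unitization ℂ A)‖ = ‖x.snd‖ := Unitization.norm_inr (𝕜 := ℂ) x.snd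
  rw [← h2, h1]
  have h3 : ‖algebraMap ℂ (Unitization ℂ A) x.fst‖ = ‖x.fst‖ := norm_algebraMap' _ _
  calc ‖x - algebraMap ℂ (Unitization ℂ A) x.fst‖
      ≤ ‖x‖ + ‖algebraMap ℂ (Unitization ℂ A) x.fst‖ := norm_sub_le _ _
    _ ≤ ‖x‖ + ‖x‖ := by
        rw [h3]
        have := fst_le A x
        linarith
    _ = 2 * ‖x‖ := by ring

/-- Bounded homomorphisms of C*-algebras are similar to *-homomorphisms. -/
theorem bounded_similar (K : Type) [NormedAddCommGroup K] [InnerProductSpace ℂ K]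
    [CompleteSpace K] (π : A →ₙₐ[ℂ] (K →L[ℂ] K)) (C : ℝ) (hC : 0 ≤ C)
    (hπ : ∀ x : A, ‖π x‖ ≤ C * ‖x‖) :
    ∃ S : (K →L[ℂ] K)ˣ,
      ‖(S : K →L[ℂ] K)‖ ^ 2 ≤ 864 * (2 * (1 + 2 * C)) ^ 29 ∧
      ‖((S⁻¹ : (K →L[ℂ] K)ˣ) : K →L[ℂ] K)‖ ^ 2 ≤ 864 * (2 * (1 + 2 * C)) ^ 29 ∧
      ∀ x : A, (S : K →L[ℂ] K) * π (star x) * ((S⁻¹ : (K →L[ℂ] K)ˣ) : K →L[ℂ] K)
        = star ((S : K →L[ℂ] K) * π x * ((S⁻¹ : (K →L[ℂ] K)ˣ) : K →L[ℂ] K)) := by
  let u : Unitization ℂ A →ₐ[ℂ] (K →L[ℂ] K) := Unitization.lift π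
  have hu : ∀ x : Unitization ℂ A, u x = algebraMap ℂ (K →L[ℂ] K) x.fst + π x.snd := by
    intro x
    rfl
  have hb : ∀ x : Unitization ℂ A, ‖u.toLinearMap x‖ ≤ (1 + 2 * C) * ‖x‖ := by
    intro x
    have h1 : ‖algebraMap ℂ (K →L[ℂ] K) x.fst‖ ≤ ‖x.fst‖ := by
      rw [Algebra.algebraMap_eq_smul_one]
      refine (norm_smul_le _ _).trans ?_
      have : ‖(1 : K →L[ℂ] K)‖ ≤ 1 := ContinuousLinearMap.norm_id_le
      nlinarith [norm_nonneg x.fst]
    show ‖u x‖ ≤ _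
    rw [hu]
    calc ‖algebraMap ℂ (K →L[ℂ] K) x.fst + π x.snd‖
        ≤ ‖algebraMap ℂ (K →L[ℂ] K) x.fst‖ + ‖π x.snd‖ := norm_add_le _ _
      _ ≤ ‖x‖ + C * (2 * ‖x‖) := by
          have h2 := fst_le A x
          have h3 := snd_le A x
          have h4 := hπ x.snd
          have h5 : C * ‖x.snd‖ ≤ C * (2 * ‖x‖) := by gcongr
          linarith
      _ = (1 + 2 * C) * ‖x‖ := by ring
  obtain ⟨S, S', h1, h2, h3, h4, h5⟩ := H770R2.Kad.fin_similar (Unitization ℂ A) K u.toLinearMap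
    ⟨fun a b => map_mul u a b, map_one u⟩ (1 + 2 * C) (by linarith) hb
  refine ⟨⟨S, S', h1, h2⟩, h3, h4, fun x => ?_⟩
  have h6 := h5 (x : Unitization ℂ A)
  have h7 : u.toLinearMap (x : Unitization ℂ A) = π x := by
    show u (x : Unitization ℂ A) = π x
    rw [hu]
    simp
  have h8 : u.toLinearMap (star (x : Unitization ℂ A)) = π (star x) := by
    show u (star (x : Unitization ℂ A)) = π (star x)
    rw [← Unitization.inr_star, hu]
    simp
  rw [h7, h8] at h6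
  exact h6.symm

end TH39.SP
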